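import Pool.Agent.H.MP_098c03_co.Data

set_option autoImplicit false

namespace Pool.Agent.H.MP_098c03_co

def dg (B w i : ℕ) : ℕ := Nat.mod (Nat.shiftRight B (Nat.mul w i)) (Nat.pow 2 w)

def px (i : ℕ) : ℕ := dg bX 48 i
def py (i : ℕ) : ℕ := dg bY 48 i
def pz (i : ℕ) : ℕ := dg bZ 48 i
def ap (i : ℕ) : ℕ := dg bAp 48 i
def an (i : ℕ) : ℕ := dg bAn 48 i
def bp (i : ℕ) : ℕ := dg bBp 48 i
def bn (i : ℕ) : ℕ := dg bBn 48 i
def cp (i : ℕ) : ℕ := dg bCp 48 i
def cn (i : ℕ) : ℕ := dg bCn 48 i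
def nb (v t : ℕ) : ℕ := dg bN 11 (Nat.add (Nat.mul 4 v) t)
def gad (v : ℕ) : ℕ := dg bG 4 v
def eu (k : ℕ) : ℕ := dg bU 11 k
def ew (k : ℕ) : ℕ := dg bW 11 k

def force (n : ℕ) (f : ℕ → Bool) : Bool := Nat.rec (f 0) (fun k _ => f (Nat.succ k)) n

theorem force_eq (n : ℕ) (f : ℕ → Bool) : force n f = f n := by cases n <;> rfl

def allN (n : ℕ) (f : ℕ → Bool) : Bool := Nat.rec true (fun k r => f k && r) n

def anyN (n : ℕ) (f : ℕ → Bool) : Bool := Nat.rec false (fun k r => f k || r) n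

def cntN (n : ℕ) (f : ℕ → Bool) : ℕ := Nat.rec 0 (fun k r => bif f k then Nat.succ r else r) n

theorem allN_iff {n : ℕ} {f : ℕ → Bool} : allN n f = true ↔ ∀ k < n, f k = true := by
  induction n with
  | zero => simp [allN]
  | succ n ih =>
    have : allN (n + 1) f = (f n && allN n f) := rfl
    rw [this, Bool.and_eq_true, ih, Nat.forall_lt_succ_right]
    tauto

theorem anyN_iff {n : ℕ} {f : ℕ → Bool} : anyN n f = true ↔ ∃ k < n, f k = true := by
  induction n with
  | zero => simp [anyN]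
  | succ n ih =>
    have : anyN (n + 1) f = (f n || anyN n f) := rfl
    rw [this, Bool.or_eq_true, ih, Nat.exists_lt_succ_right]
    exact or_comm

theorem cntN_eq (n : ℕ) (f : ℕ → Bool) :
    cntN n f = ((Finset.range n).filter (fun k => f k = true)).card := by
  induction n with
  | zero => simp [cntN]
  | succ n ih =>
    have : cntN (n + 1) f = bif f n then Nat.succ (cntN n f) else cntN n f := rfl
    rw [this, Finset.range_add_one, Finset.filter_insert, ih]
    cases h : f n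
    · simp
    · simp

def test (a a' b b' c c' x y z : ℕ) : Bool :=
  Nat.beq (Nat.add (Nat.add (Nat.mul a x) (Nat.mul b y)) (Nat.mul c z))
    (Nat.add (Nat.add (Nat.mul a' x) (Nat.mul b' y)) (Nat.mul c' z))

def inc (i j : ℕ) : Bool := test (ap j) (an j) (bp j) (bn j) (cp j) (cn j) (px i) (py i) (pz i)

def adj (v w : ℕ) : Bool := anyN 4 (fun t => Nat.beq (nb v t) w)

def row (i : ℕ) : Bool :=
  force (px i) fun x => force (py i) fun y => force (pz i) fun z =>
    Nat.beq (cntN 534 (fun j => test (ap j) (an j) (bp j) (bn j) (cp j) (cn j) x y z)) 4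

theorem f1 : allN 534 row = true := by decide +kernel

theorem f2 : allN 534 (fun i => Nat.blt 0 (pz i) && (!(Nat.beq (ap i) (an i)) || !(Nat.beq (bp i) (bn i)))
    && allN 4 (fun t => Nat.ble 534 (nb i t) && Nat.blt (nb i t) 1068 && inc i (nb i t - 534)
      && Nat.blt (nb (534 + i) t) 534 &&
      (Nat.beq (gad i) (gad (nb i t)) ||
        anyN 24 (fun k => Nat.beq (eu k) i && Nat.beq (ew k) (nb i t))))) = true := by
  decide +kernel

theorem f3 : allN 1068 (fun v => allN 4 (fun t => adj (nb v t) v &&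
    allN 4 (fun s => (Nat.beq s t || !(Nat.beq (nb v s) (nb v t))) &&
      (Nat.beq (nb (nb v 0) s) v || !(Nat.beq (nb (nb v 0) s) (nb (nb v 1) t)))))) = true := by
  decide +kernel

def chain : ℕ → List ℕ → Bool
  | _, [] => true
  | v, x :: l => adj v x && chain x l

def lst : ℕ → List ℕ → ℕ
  | v, [] => v
  | _, x :: l => lst x l

def disj (p q : List ℕ) : Bool := p.all (fun x => q.all (fun y => !(Nat.beq x y)))

def ok3 (v : ℕ) (p q r : List ℕ) : Bool :=
  Nat.blt v 1068 && chain v p && chain v q && chain v r && disj p q && disj p r && disj q r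

def okS (C : ℕ) (s : ℕ × List ℕ × List ℕ × List ℕ) : Bool :=
  ok3 s.1 s.2.1 s.2.2.1 s.2.2.2 && Nat.testBit C (lst s.1 s.2.1) &&
    Nat.testBit C (lst s.1 s.2.2.1) && Nat.testBit C (lst s.1 s.2.2.2)

def okI (v t : ℕ) (p q r : List ℕ) : Bool :=
  ok3 v p q r && adj (lst v p) t && adj (lst v q) t && adj (lst v r) t

def full : ℕ := Nat.pow 2 1068 - 1

def start : ℕ := Nat.lor (Nat.lor (Nat.lor 0 (Nat.pow 2 0)) (Nat.pow 2 534)) (Nat.pow 2 537)

def run : List (ℕ × List ℕ × List ℕ × List ℕ) → ℕ → Bool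
  | [], C => Nat.beq C full
  | s :: l, C => okS C s && force (Nat.lor C (Nat.pow 2 s.1)) (run l)

theorem f4 : run steps start = true := by
  decide +kernel

theorem f5 : okI 0 534 [] [537, 4, 542, 2] [538, 5, 540, 1] = true ∧
    okI 0 537 [534, 1, 539, 8] [] [538, 5, 535, 4] = true ∧
    okI 534 537 [0] [1, 539, 8] [2, 542, 4] = true := by decide +kernel

def gu (k : ℕ) : ℕ :=
  [0, 0, 0, 0, 2, 2, 2, 2, 4, 4, 4, 4, 6, 6, 6, 6, 9, 9, 9, 9, 11, 11, 11, 11].getD k 0
def gw (k : ℕ) : ℕ :=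
  [1, 7, 8, 8, 1, 3, 10, 10, 3, 5, 8, 8, 5, 7, 10, 10, 1, 1, 5, 5, 3, 3, 7, 7].getD k 0
def np (g : ℕ) : ℕ := [45, 44, 45, 44, 45, 44, 45, 44, 44, 45, 44, 45].getD g 0

theorem f6 : allN 24 (fun k => Nat.beq (gad (eu k)) (gu k) && Nat.beq (gad (ew k)) (gw k) &&
    Nat.blt (eu k) 534 && Nat.ble 534 (ew k) && Nat.blt (ew k) 1068 &&
    allN 24 (fun k' => Nat.beq k k' || !(Nat.beq (eu k) (eu k')))) = true := by decide +kernel

theorem f7 : allN 12 (fun g => Nat.beq (cntN 534 (fun i => Nat.beq (gad i) g)) (np g) &&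
    Nat.beq (cntN 534 (fun i => Nat.beq (gad (534 + i)) g) + np g) 89) = true := by decide +kernel

end Pool.Agent.H.MP_098c03_co
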