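import Pool.Agent.H.MP_098c03_co.Chk

set_option autoImplicit false

namespace Pool.Agent.H.MP_098c03_co

open Finset

theorem adj_iff {v w : ℕ} : adj v w = true ↔ ∃ t < 4, nb v t = w := by
  simp only [adj, anyN_iff, Nat.beq_eq]

theorem g2 {i : ℕ} (hi : i < 534) : 0 < pz i ∧ (ap i ≠ an i ∨ bp i ≠ bn i) ∧
    ∀ t < 4, 534 ≤ nb i t ∧ nb i t < 1068 ∧ inc i (nb i t - 534) = true ∧
      nb (534 + i) t < 534 ∧
      (gad i = gad (nb i t) ∨ ∃ k < 24, eu k = i ∧ ew k = nb i t) := by
  have := allN_iff.mp f2 i hi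
  simp only [Bool.and_eq_true, Bool.or_eq_true, allN_iff, anyN_iff, Nat.beq_eq, Nat.blt_eq,
    Nat.ble_eq, Bool.not_eq_true', Bool.eq_false_iff, ne_eq] at this
  exact ⟨this.1.1, this.1.2, fun t ht => by
    have := this.2 t ht
    exact ⟨this.1.1.1.1, this.1.1.1.2, this.1.1.2, this.1.2, this.2⟩⟩

theorem g3 {v : ℕ} (hv : v < 1068) {t : ℕ} (ht : t < 4) : adj (nb v t) v = true ∧
    ∀ s < 4, (s = t ∨ nb v s ≠ nb v t) ∧
      (nb (nb v 0) s = v ∨ nb (nb v 0) s ≠ nb (nb v 1) t) := by
  have := allN_iff.mp (allN_iff.mp f3 v hv) t ht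
  simp only [Bool.and_eq_true, Bool.or_eq_true, allN_iff, Nat.beq_eq,
    Bool.not_eq_true', Bool.eq_false_iff, ne_eq] at this
  exact this

theorem adj_pt {v w : ℕ} (hv : v < 534) (h : adj v w = true) : 534 ≤ w ∧ w < 1068 := by
  obtain ⟨t, ht, rfl⟩ := adj_iff.mp h
  have := (g2 hv).2.2 t ht
  exact ⟨this.1, this.2.1⟩

theorem adj_ln {v w : ℕ} (hv : 534 ≤ v) (hv' : v < 1068) (h : adj v w = true) : w < 534 := by
  obtain ⟨t, ht, rfl⟩ := adj_iff.mp h
  have := ((g2 (show v - 534 < 534 by omega)).2.2 t ht).2.2.2.1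
  rwa [show 534 + (v - 534) = v by omega] at this

theorem adj_lt {v w : ℕ} (hv : v < 1068) (h : adj v w = true) : w < 1068 := by
  by_cases h1 : v < 534
  · exact (adj_pt h1 h).2
  · have := adj_ln (by omega) hv h; omega

theorem adj_symm {v w : ℕ} (hv : v < 1068) (h : adj v w = true) : adj w v = true := by
  obtain ⟨t, ht, rfl⟩ := adj_iff.mp h
  exact (g3 hv ht).1

theorem card_adj {v : ℕ} (hv : v < 1068) (s : Finset ℕ) (hs : ∀ w, w ∈ s ↔ adj v w = true) :
    s.card = 4 := by
  have : s = (range 4).image (nb v) := by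
    ext w
    rw [hs, adj_iff]
    simp only [mem_image, mem_range]
  rw [this, card_image_of_injOn, card_range]
  intro a ha b hb e
  exact ((g3 hv (mem_range.mp hb)).2 a (mem_range.mp ha)).1.resolve_right (fun h => h e)

theorem inc_iff {i j : ℕ} (hi : i < 534) (hj : j < 534) :
    inc i j = true ↔ adj i (534 + j) = true := by
  have h1 : ((range 534).filter (fun j => inc i j = true)).card = 4 := by
    have := allN_iff.mp f1 i hi
    simp only [row, force_eq, Nat.beq_eq, cntN_eq] at this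
    exact this
  have h2 : ((range 534).filter (fun j => adj i (534 + j) = true)).card = 4 := by
    rw [← card_image_of_injective _ (add_right_injective 534)]
    apply card_adj (v := i) (by omega)
    intro w
    simp only [mem_image, mem_filter, mem_range]
    constructor
    · rintro ⟨a, ⟨-, ha⟩, rfl⟩; exact ha
    · intro h
      have := adj_pt hi h
      refine ⟨w - 534, ⟨by omega, ?_⟩, by omega⟩
      rwa [show 534 + (w - 534) = w by omega]
  have h3 : (range 534).filter (fun j => adj i (534 + j) = true) ⊆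
      (range 534).filter (fun j => inc i j = true) := by
    intro a ha
    have := mem_filter.mp ha
    obtain ⟨t, ht, e⟩ := adj_iff.mp this.2
    have h4 := ((g2 hi).2.2 t ht).2.2.1
    rw [e, show 534 + a - 534 = a by omega] at h4
    exact mem_filter.mpr ⟨this.1, h4⟩
  have h4 := eq_of_subset_of_card_le h3 (by omega)
  have h5 := Finset.ext_iff.mp h4 j
  simp only [mem_filter, mem_range, hj, true_and] at h5
  exact h5.symm

theorem twin {v w : ℕ} (hv : v < 1068) (hw : w < 1068)
    (h : ∀ x, adj v x = true → adj w x = true) : w = v := by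
  obtain ⟨s, hs, e1⟩ := adj_iff.mp (adj_symm hw (h _ (adj_iff.mpr ⟨0, by norm_num, rfl⟩)))
  obtain ⟨t, ht, e2⟩ := adj_iff.mp (adj_symm hw (h _ (adj_iff.mpr ⟨1, by norm_num, rfl⟩)))
  have := ((g3 hv ht).2 s hs).2
  rw [e1, e2] at this
  exact this.resolve_right (fun h => h rfl)

section
variable {V : Type} (G : SimpleGraph V) (vert : ℕ → V)
  (hinj : ∀ a < 1068, ∀ b < 1068, vert a = vert b → a = b)
  (hsurj : ∀ v, ∃ a < 1068, vert a = v)
  (hadj : ∀ a < 1068, ∀ b < 1068, (G.Adj (vert a) (vert b) ↔ adj a b = true))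

def Lk (S : Finset V) (a b : ℕ) : Prop :=
  Relation.ReflTransGen (fun x y : V => G.Adj x y ∧ x ∉ S ∧ y ∉ S) (vert a) (vert b)

theorem Lk.symm {S : Finset V} {a b : ℕ} (h : Lk G vert S a b) : Lk G vert S b a := by
  unfold Lk at *
  generalize vert a = x at h
  generalize vert b = y at h
  induction h with
  | refl => exact Relation.ReflTransGen.refl
  | tail _ h2 ih => exact Relation.ReflTransGen.head ⟨h2.1.symm, h2.2.2, h2.2.1⟩ ih

theorem chain_lt : ∀ (p : List ℕ) (v : ℕ), v < 1068 → chain v p = true →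
    lst v p < 1068 ∧ ∀ x ∈ p, x < 1068
  | [], v, hv, _ => ⟨hv, by simp⟩
  | x :: l, v, hv, h => by
    simp only [chain, Bool.and_eq_true] at h
    have h1 := adj_lt hv h.1
    have h2 := chain_lt l x h1 h.2
    exact ⟨h2.1, by simpa using ⟨h1, h2.2⟩⟩

include hadj in
theorem chain_lk (S : Finset V) : ∀ (p : List ℕ) (v : ℕ), v < 1068 → chain v p = true →
    vert v ∉ S → (∀ x ∈ p, vert x ∉ S) → Lk G vert S v (lst v p) ∧ vert (lst v p) ∉ S
  | [], _, _, _, h2, _ => ⟨Relation.ReflTransGen.refl, h2⟩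
  | x :: l, v, hv, h, h2, h3 => by
    simp only [chain, Bool.and_eq_true] at h
    have h1 := adj_lt hv h.1
    have h4 := h3 x (by simp)
    have h5 := chain_lk S l x h1 h.2 h4 (fun y hy => h3 y (by simp [hy]))
    exact ⟨Relation.ReflTransGen.head ⟨(hadj v hv x h1).mpr h.1, h2, h4⟩ h5.1, h5.2⟩

theorem disj_ne {p q : List ℕ} (h : disj p q = true) {x y : ℕ} (hx : x ∈ p) (hy : y ∈ q) :
    x ≠ y := by
  simp only [disj, List.all_eq_true, Bool.not_eq_true', Bool.eq_false_iff, ne_eq,
    Nat.beq_eq] at h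
  exact h x hx y hy

include hinj hadj in
theorem ok3_lk {S : Finset V} (hS : S.card < 3) {v : ℕ} {p q r : List ℕ}
    (h : ok3 v p q r = true) (hv : vert v ∉ S) :
    ∃ l, (l = p ∨ l = q ∨ l = r) ∧ lst v l < 1068 ∧
      Lk G vert S v (lst v l) ∧ vert (lst v l) ∉ S := by
  classical
  simp only [ok3, Bool.and_eq_true, Nat.blt_eq] at h
  obtain ⟨⟨⟨⟨⟨⟨h0, hp⟩, hq⟩, hr⟩, d1⟩, d2⟩, d3⟩ := h
  by_cases a1 : ∀ x ∈ p, vert x ∉ S
  · exact ⟨p, by simp, (chain_lt p v h0 hp).1, chain_lk G vert hadj S p v h0 hp hv a1⟩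
  by_cases a2 : ∀ x ∈ q, vert x ∉ S
  · exact ⟨q, by simp, (chain_lt q v h0 hq).1, chain_lk G vert hadj S q v h0 hq hv a2⟩
  by_cases a3 : ∀ x ∈ r, vert x ∉ S
  · exact ⟨r, by simp, (chain_lt r v h0 hr).1, chain_lk G vert hadj S r v h0 hr hv a3⟩
  exfalso
  push Not at a1 a2 a3
  obtain ⟨x, hx, hx'⟩ := a1
  obtain ⟨y, hy, hy'⟩ := a2
  obtain ⟨z, hz, hz'⟩ := a3
  have b1 := (chain_lt p v h0 hp).2 x hx
  have b2 := (chain_lt q v h0 hq).2 y hy
  have b3 := (chain_lt r v h0 hr).2 z hz
  have := two_lt_card_iff.mpr ⟨vert x, vert y, vert z, hx', hy', hz',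
    fun e => disj_ne d1 hx hy (hinj _ b1 _ b2 e), fun e => disj_ne d2 hx hz (hinj _ b1 _ b3 e),
    fun e => disj_ne d3 hy hz (hinj _ b2 _ b3 e)⟩
  omega

def InvC (S : Finset V) (C : ℕ) : Prop :=
  ∀ a b, C.testBit a = true → C.testBit b = true → vert a ∉ S → vert b ∉ S → Lk G vert S a b

theorem tb_lor {C v a : ℕ} : (Nat.lor C (Nat.pow 2 v)).testBit a = true ↔
    C.testBit a = true ∨ a = v := by
  show (C ||| 2 ^ v).testBit a = true ↔ _
  rw [Nat.testBit_lor, Bool.or_eq_true, Nat.testBit_two_pow, decide_eq_true_eq, eq_comm (a := v)]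

theorem tb_all (n a : ℕ) (h : a < n) : (Nat.pow 2 n - 1).testBit a = true := by
  show (2 ^ n - 1).testBit a = true
  rw [Nat.testBit_two_pow_sub_one]; simpa using h

include hinj hadj in
theorem run_inv {S : Finset V} (hS : S.card < 3) :
    ∀ (l : List (ℕ × List ℕ × List ℕ × List ℕ)) (C : ℕ), run l C = true → InvC G vert S C →
      InvC G vert S full
  | [], C, h, hC => by
    simp only [run, Nat.beq_eq] at h
    exact h ▸ hC
  | s :: l, C, h, hC => by
    simp only [run, force_eq, Bool.and_eq_true, okS] at h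
    refine run_inv hS l _ h.2 ?_
    have key : ∀ b, C.testBit b = true → vert s.1 ∉ S → vert b ∉ S → Lk G vert S s.1 b := by
      intro b hb h1 h2
      obtain ⟨p, hp, -, h3, h4⟩ := ok3_lk G vert hinj hadj hS h.1.1.1.1 h1
      refine Relation.ReflTransGen.trans h3 (hC _ b ?_ hb h4 h2)
      rcases hp with rfl | rfl | rfl
      · exact h.1.1.1.2
      · exact h.1.1.2
      · exact h.1.2
    intro a b ha hb h1 h2
    rcases tb_lor.mp ha with ha | rfl <;> rcases tb_lor.mp hb with hb | rfl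
    · exact hC a b ha hb h1 h2
    · exact (key a ha h2 h1).symm
    · exact key b hb h1 h2
    · exact Relation.ReflTransGen.refl

include hinj hadj in
theorem okI_lk {S : Finset V} (hS : S.card < 3) {v t : ℕ} {p q r : List ℕ}
    (h : okI v t p q r = true) (hv : vert v ∉ S) (ht : vert t ∉ S) : Lk G vert S v t := by
  simp only [okI, Bool.and_eq_true] at h
  obtain ⟨l, hl, h2, h3, h4⟩ := ok3_lk G vert hinj hadj hS h.1.1.1 hv
  have h5 : adj (lst v l) t = true := by
    rcases hl with rfl | rfl | rfl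
    · exact h.1.1.2
    · exact h.1.2
    · exact h.2
  exact Relation.ReflTransGen.tail h3 ⟨(hadj _ h2 _ (adj_lt h2 h5)).mpr h5, h4, ht⟩

include hinj hsurj hadj in
theorem conn (S : Finset V) (hS : S.card < 3) : (G.induce ((↑S : Set V)ᶜ)).Connected := by
  classical
  have h0 : InvC G vert S full := by
    refine run_inv G vert hinj hadj hS steps _ f4 ?_
    intro a b ha hb h1 h2
    have e : ∀ a, start.testBit a = true → a = 0 ∨ a = 534 ∨ a = 537 := by
      intro a ha
      unfold start at ha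
      rw [tb_lor, tb_lor, tb_lor, Nat.zero_testBit] at ha
      simpa [or_assoc] using ha
    rcases e a ha with rfl | rfl | rfl <;> rcases e b hb with rfl | rfl | rfl
    · exact Relation.ReflTransGen.refl
    · exact okI_lk G vert hinj hadj hS f5.1 h1 h2
    · exact okI_lk G vert hinj hadj hS f5.2.1 h1 h2
    · exact (okI_lk G vert hinj hadj hS f5.1 h2 h1).symm
    · exact Relation.ReflTransGen.refl
    · exact okI_lk G vert hinj hadj hS f5.2.2 h1 h2
    · exact (okI_lk G vert hinj hadj hS f5.2.1 h2 h1).symm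
    · exact (okI_lk G vert hinj hadj hS f5.2.2 h2 h1).symm
    · exact Relation.ReflTransGen.refl
  have h1 : ∀ x y : V, Relation.ReflTransGen (fun x y : V => G.Adj x y ∧ x ∉ S ∧ y ∉ S) x y →
      ∀ (hx : x ∈ ((↑S : Set V)ᶜ)) (hy : y ∈ ((↑S : Set V)ᶜ)),
        (G.induce ((↑S : Set V)ᶜ)).Reachable ⟨x, hx⟩ ⟨y, hy⟩ := by
    intro x y h
    induction h with
    | refl => intro _ _; rfl
    | tail _ h2 ih =>
      intro hx hy
      exact (ih hx h2.2.1).trans (SimpleGraph.Adj.reachable (by exact h2.1))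
  have hne : ∃ a, vert a ∉ S := by
    by_contra hc
    push Not at hc
    have := two_lt_card_iff.mpr ⟨vert 0, vert 1, vert 2, hc _, hc _, hc _,
      fun e => by have := hinj _ (by norm_num) _ (by norm_num) e; omega,
      fun e => by have := hinj _ (by norm_num) _ (by norm_num) e; omega,
      fun e => by have := hinj _ (by norm_num) _ (by norm_num) e; omega⟩
    omega
  obtain ⟨a0, ha0⟩ := hne
  have : Nonempty ((↑S : Set V)ᶜ : Set V) := ⟨⟨vert a0, ha0⟩⟩
  refine ⟨?_⟩
  rintro ⟨x, hx⟩ ⟨y, hy⟩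
  obtain ⟨a, ha, rfl⟩ := hsurj x
  obtain ⟨b, hb, rfl⟩ := hsurj y
  apply h1
  refine h0 a b ?_ ?_ hx hy
  · unfold full; exact tb_all _ _ ha
  · unfold full; exact tb_all _ _ hb

theorem walk_closed (W : V → Prop) : ∀ {u v : V} (q : G.Walk u v),
    (∀ a b, q.toSubgraph.Adj a b → (W a ↔ W b)) → ∀ x ∈ q.support, (W x ↔ W u)
  | _, _, .nil, _ => by simp
  | _, _, .cons (u := u) (v := w) h q, hq => by
    intro x hx
    rw [SimpleGraph.Walk.support_cons, List.mem_cons] at hx
    rcases hx with rfl | hx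
    · rfl
    · have h1 := walk_closed W q (fun a b hab => hq a b (Or.inr hab)) x hx
      have h2 := hq u w (Or.inl rfl)
      exact h1.trans h2.symm

theorem base (y : ℕ → ℤ) (hy : ∀ k, 0 ≤ y k)
    (h1 : ∀ g < 12, ∑ k ∈ range 24,
      y k * ((if gu k = g then 1 else 0) - (if gw k = g then 1 else 0)) =
        2 * (np g : ℤ) - 2 * (89 - np g))
    (h2 : ∀ U : ℕ, (∃ a < 24, ∃ b < 24, U.testBit (gu a) ≠ U.testBit (gw b)) →
      1 ≤ ∑ k ∈ range 24, y k * (if U.testBit (gu k) = U.testBit (gw k) then 0 else 1)) :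
    False := by
  have a0 := h1 0 (by norm_num)
  have a1 := h1 1 (by norm_num)
  have a2 := h1 2 (by norm_num)
  have a3 := h1 3 (by norm_num)
  have a4 := h1 4 (by norm_num)
  have a5 := h1 5 (by norm_num)
  have a6 := h1 6 (by norm_num)
  have a7 := h1 7 (by norm_num)
  have a8 := h1 8 (by norm_num)
  have a9 := h1 9 (by norm_num)
  have a10 := h1 10 (by norm_num)
  have a11 := h1 11 (by norm_num)
  have b0 := h2 257 (by decide)
  have b1 := h2 514 (by decide)
  have b2 := h2 1028 (by decide)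
  have b3 := h2 2056 (by decide)
  have b4 := h2 272 (by decide)
  have b5 := h2 544 (by decide)
  have b6 := h2 1088 (by decide)
  have b7 := h2 2176 (by decide)
  have c0 := h2 819 (by decide)
  have c1 := h2 1638 (by decide)
  simp [sum_range_succ, gu, gw, np, Nat.testBit] at a0 a1 a2 a3 a4 a5 a6 a7 a8 a9 a10 a11 b0 b1 b2 b3 b4 b5 b6 b7 c0 c1
  have := hy 0; have := hy 1; have := hy 2; have := hy 3; have := hy 4; have := hy 5
  have := hy 6; have := hy 7; have := hy 8; have := hy 9; have := hy 10; have := hy 11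
  have := hy 12; have := hy 13; have := hy 14; have := hy 15; have := hy 16; have := hy 17
  have := hy 18; have := hy 19; have := hy 20; have := hy 21; have := hy 22; have := hy 23
  omega

theorem pairsum (s t K : Finset ℕ) (F : ℕ → ℕ → ℤ) (u w : ℕ → ℕ) (Gk : ℕ → ℤ)
    (h1 : ∀ k ∈ K, u k ∈ s ∧ w k ∈ t) (h2 : ∀ k ∈ K, ∀ k' ∈ K, u k = u k' → k = k')
    (h3 : ∀ a ∈ s, ∀ b ∈ t, F a b ≠ 0 → ∃ k ∈ K, u k = a ∧ w k = b)
    (h4 : ∀ k ∈ K, Gk k = F (u k) (w k)) : ∑ k ∈ K, Gk k = ∑ a ∈ s, ∑ b ∈ t, F a b := by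
  rw [← sum_product']
  refine sum_bij_ne_zero (fun k _ _ => (u k, w k)) ?_ ?_ ?_ ?_
  · intro k hk _
    exact mem_product.mpr (h1 k hk)
  · intro k hk _ k' hk' _ e
    exact h2 k hk k' hk' (congrArg Prod.fst e)
  · rintro ⟨a, b⟩ hab hne
    have h8 := mem_product.mp hab
    obtain ⟨k, hk, rfl, rfl⟩ := h3 a h8.1 b h8.2 hne
    exact ⟨k, hk, by rw [h4 k hk]; exact hne, rfl⟩
  · intro k hk _
    exact h4 k hk

include hinj hsurj hadj in
theorem nonham [Fintype V] [DecidableEq V] : ¬ G.IsHamiltonian := by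
  classical
  intro hH
  obtain ⟨a0, p, hp⟩ := hH (by
    intro h
    obtain ⟨x, hx⟩ := Fintype.card_eq_one_iff.mp h
    have := hinj 0 (by norm_num) 1 (by norm_num) ((hx _).trans (hx _).symm)
    omega)
  let R : ℕ → ℕ → Prop := fun a b => p.toSubgraph.Adj (vert a) (vert b)
  have hRa : ∀ a < 1068, ∀ b < 1068, R a b → adj a b = true := fun a ha b hb h =>
    (hadj a ha b hb).mp (p.toSubgraph.adj_sub h)
  have hdeg : ∀ a, ∀ s : Finset ℕ, (∀ b ∈ s, b < 1068) → (∀ b < 1068, R a b → b ∈ s) →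
      (s.filter (R a)).card = 2 := by
    intro a s hs1 hs2
    rw [← hp.isCycle.ncard_neighborSet_toSubgraph_eq_two (hp.mem_support (vert a)),
      ← Set.ncard_coe_finset, ← Set.InjOn.ncard_image (f := vert)
        (fun x hx y hy e => hinj x (hs1 x (mem_filter.mp hx).1) y (hs1 y (mem_filter.mp hy).1) e)]
    congr 1
    ext w
    constructor
    · rintro ⟨b, hb, rfl⟩; exact (mem_filter.mp hb).2
    · intro hw
      obtain ⟨b, hb, rfl⟩ := hsurj w
      exact ⟨b, mem_filter.mpr ⟨hs2 b hb hw, hw⟩, rfl⟩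
  have h6 : ∀ k < 24, gad (eu k) = gu k ∧ gad (ew k) = gw k ∧ eu k < 534 ∧ 534 ≤ ew k ∧
      ew k < 1068 ∧ ∀ k' < 24, k = k' ∨ eu k ≠ eu k' := by
    intro k hk
    have := allN_iff.mp f6 k hk
    simp only [Bool.and_eq_true, Bool.or_eq_true, allN_iff, Nat.beq_eq, Nat.blt_eq,
      Nat.ble_eq, Bool.not_eq_true', Bool.eq_false_iff, ne_eq] at this
    exact ⟨this.1.1.1.1.1, this.1.1.1.1.2, this.1.1.1.2, this.1.1.2, this.1.2, this.2⟩
  have hext : ∀ a < 534, ∀ b < 1068, R a b → gad a = gad b ∨ ∃ k < 24, eu k = a ∧ ew k = b := by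
    intro a ha b hb h
    obtain ⟨t, ht, rfl⟩ := adj_iff.mp (hRa a (by omega) b hb h)
    exact ((g2 ha).2.2 t ht).2.2.2.2
  apply base (fun k => if R (eu k) (ew k) then 1 else 0) (fun k => by split_ifs <;> norm_num)
  · intro g hg
    have h7 := allN_iff.mp f7 g hg
    simp only [Bool.and_eq_true, Nat.beq_eq, cntN_eq] at h7
    have e1 : ∑ a ∈ range 534, ∑ b ∈ Ico 534 1068,
        (if R a b then (if gad a = g then (1 : ℤ) else 0) else 0) = 2 * np g := by
      rw [sum_congr rfl (g := fun a => if gad a = g then (2 : ℤ) else 0), ← sum_filter,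
        sum_const, h7.1]
      · simp [mul_comm]
      · intro a ha
        rw [← sum_filter, sum_const, hdeg a _ (fun b hb => (mem_Ico.mp hb).2) (fun b hb h =>
          mem_Ico.mpr (adj_pt (mem_range.mp ha)
            (hRa a (by have := mem_range.mp ha; omega) b hb h)))]
        split_ifs <;> simp
    have e2 : ∑ a ∈ range 534, ∑ b ∈ Ico 534 1068,
        (if R a b then (if gad b = g then (1 : ℤ) else 0) else 0) = 2 * (89 - np g) := by
      rw [sum_comm, sum_congr rfl (g := fun b => if gad b = g then (2 : ℤ) else 0),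
        sum_Ico_eq_sum_range, ← sum_filter, sum_const]
      · have := h7.2
        simp only [nsmul_eq_mul]
        show ((filter (fun k => gad (534 + k) = g) (range 534)).card : ℤ) * 2 = _
        omega
      · intro b hb
        have hb' := mem_Ico.mp hb
        have : (range 534).filter (fun a => R a b) = (range 534).filter (R b) :=
          filter_congr (fun a _ => ⟨fun h => h.symm, fun h => h.symm⟩)
        rw [← sum_filter, sum_const, this, hdeg b _
          (fun a ha => by have := mem_range.mp ha; omega) (fun a ha h =>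
          mem_range.mpr (adj_ln hb'.1 hb'.2 (hRa b hb'.2 a ha h)))]
        split_ifs <;> simp
    rw [← e1, ← e2, ← sum_sub_distrib, sum_congr rfl (fun a _ => (sum_sub_distrib _ _).symm)]
    refine pairsum _ _ _ _ eu ew _ ?_ ?_ ?_ ?_
    · intro k hk
      have := h6 k (mem_range.mp hk)
      exact ⟨mem_range.mpr this.2.2.1, mem_Ico.mpr ⟨this.2.2.2.1, this.2.2.2.2.1⟩⟩
    · intro k hk k' hk' e
      exact ((h6 k (mem_range.mp hk)).2.2.2.2.2 k' (mem_range.mp hk')).resolve_right
        (fun h => h e)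
    · intro a ha b hb hne
      by_cases hR : R a b
      · rcases hext a (mem_range.mp ha) b (mem_Ico.mp hb).2 hR with h9 | ⟨k, hk, h9⟩
        · exact absurd (by rw [h9, sub_self]) hne
        · exact ⟨k, mem_range.mpr hk, h9⟩
      · exact absurd (by rw [if_neg hR, if_neg hR, sub_self]) hne
    · intro k hk
      have := h6 k (mem_range.mp hk)
      by_cases hR : R (eu k) (ew k)
      · simp only [hR, if_true, one_mul, this.1, this.2.1]
      · simp only [hR, if_false, zero_mul, sub_self]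
  · rintro U ⟨a, ha, b, hb, hab⟩
    by_contra hc
    have hno : ∀ k < 24, R (eu k) (ew k) → U.testBit (gu k) = U.testBit (gw k) := by
      intro k hk hR
      by_contra h9
      apply hc
      refine le_trans ?_ (single_le_sum (f := fun k => (if R (eu k) (ew k) then (1 : ℤ) else 0) *
        (if U.testBit (gu k) = U.testBit (gw k) then 0 else 1))
        (fun i _ => by split_ifs <;> norm_num) (mem_range.mpr hk))
      simp [hR, h9]
    have hcl : ∀ a < 534, ∀ b < 1068, R a b → U.testBit (gad a) = U.testBit (gad b) := by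
      intro a ha b hb hR
      rcases hext a ha b hb hR with h9 | ⟨k, hk, rfl, rfl⟩
      · rw [h9]
      · rw [(h6 k hk).1, (h6 k hk).2.1]; exact hno k hk hR
    let W : V → Prop := fun v => ∃ a < 1068, vert a = v ∧ U.testBit (gad a) = true
    have hW : ∀ a < 1068, (W (vert a) ↔ U.testBit (gad a) = true) := by
      intro a ha
      constructor
      · rintro ⟨b, hb, e, h⟩; rwa [hinj b hb a ha e] at h
      · intro h; exact ⟨a, ha, rfl, h⟩
    have h9 := walk_closed G W p (by
      intro x y hxy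
      obtain ⟨a, ha, rfl⟩ := hsurj x
      obtain ⟨b, hb, rfl⟩ := hsurj y
      rw [hW a ha, hW b hb]
      by_cases h10 : a < 534
      · rw [hcl a h10 b hb hxy]
      · rw [hcl b (adj_ln (by omega) ha (hRa a ha b hb hxy)) a ha hxy.symm])
    have h10 := h9 _ (hp.mem_support (vert (eu a)))
    have h11 := h9 _ (hp.mem_support (vert (ew b)))
    rw [hW _ (by have := (h6 a ha).2.2.1; omega), (h6 a ha).1] at h10
    rw [hW _ (h6 b hb).2.2.2.2.1, (h6 b hb).2.1] at h11
    apply hab
    rw [Bool.eq_iff_iff]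
    exact h10.trans h11.symm

end

end Pool.Agent.H.MP_098c03_co
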